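import Mathlib

set_option autoImplicit false

open Metric Set

namespace Pool.Agent.Results.MP_69a59d_an.Answer

theorem result {H : Type*} [NormedAddCommGroup H] [InnerProductSpace ℂ H] [CompleteSpace H]
    (T : H →ₗ[ℂ] H) (hT : ∀ x, ‖T x‖ ^ 2 ≤ ‖T (T x)‖ * ‖x‖) :
    ∃ C : ℝ, ∀ x, ‖T x‖ ≤ C * ‖x‖ := by
  have hU : ⋃ k : ℕ, closure {x : H | ‖T (T x)‖ ≤ k} = univ := by
    refine eq_univ_of_forall fun x => ?_
    obtain ⟨k, hk⟩ := exists_nat_ge ‖T (T x)‖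
    exact mem_iUnion.2 ⟨k, subset_closure hk⟩
  obtain ⟨k, x0, hx0⟩ := nonempty_interior_of_iUnion_of_closed (fun _ => isClosed_closure) hU
  obtain ⟨r, hr, hb⟩ := Metric.mem_nhds_iff.1 (mem_interior_iff_mem_nhds.1 hx0)
  have app : ∀ v : H, ‖v‖ < r → ∀ ε > 0, ∃ d : H, ‖v - d‖ < ε ∧ ‖T (T d)‖ ≤ 2 * k := by
    intro v hv ε hε
    obtain ⟨a, ha, ha'⟩ := Metric.mem_closure_iff.1 (hb (show x0 + v ∈ ball x0 r by
      rwa [mem_ball, dist_eq_norm, add_sub_cancel_left])) (ε / 2) (by positivity)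
    obtain ⟨b, hb1, hb'⟩ := Metric.mem_closure_iff.1 (hb (mem_ball_self hr)) (ε / 2)
      (by positivity)
    rw [dist_eq_norm] at ha' hb'
    refine ⟨a - b, ?_, ?_⟩
    · rw [show v - (a - b) = (x0 + v - a) - (x0 - b) by abel]
      linarith [norm_sub_le (x0 + v - a) (x0 - b)]
    · rw [map_sub, map_sub]
      have h1 : ‖T (T a)‖ ≤ k := ha
      have h2 : ‖T (T b)‖ ≤ k := hb1
      linarith [norm_sub_le (T (T a)) (T (T b))]
  have key : ∀ v : H, ‖v‖ < r → ‖T v‖ ≤ 2 * k * (r + 1) + 2 := by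
    intro v hv
    obtain ⟨d, hd, hd'⟩ := app v hv (min 1 (‖T (T v)‖ + 2 * k + 1)⁻¹)
      (lt_min one_pos (by positivity))
    rw [lt_min_iff] at hd
    have h1 := hT (v - d)
    have h2 := hT d
    have h3 : ‖T (T (v - d))‖ ≤ ‖T (T v)‖ + 2 * k + 1 := by
      rw [map_sub, map_sub]
      linarith [norm_sub_le (T (T v)) (T (T d))]
    have h4 : ‖T (v - d)‖ ^ 2 ≤ 1 := by
      refine h1.trans ((mul_le_mul h3 hd.2.le (norm_nonneg _) (by positivity)).trans_eq ?_)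
      exact mul_inv_cancel₀ (by positivity)
    have h5 : ‖d‖ ≤ r + 1 := by
      have := norm_sub_le v (v - d)
      rw [sub_sub_cancel] at this
      linarith [hd.1]
    have h6 : ‖T d‖ ^ 2 ≤ 2 * k * (r + 1) :=
      h2.trans (mul_le_mul hd' h5 (norm_nonneg _) (by positivity))
    have h7 : ‖T v‖ ≤ ‖T (v - d)‖ + ‖T d‖ := by
      have := norm_add_le (T (v - d)) (T d)
      rwa [← map_add, sub_add_cancel] at this
    nlinarith [sq_nonneg (‖T d‖ - 1), sq_nonneg (‖T (v - d)‖ - 1), norm_nonneg (T (v - d))]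
  refine ⟨(2 * k * (r + 1) + 2) / (r / 2), fun x => ?_⟩
  rcases eq_or_ne x 0 with rfl | hx
  · simp
  have hn : 0 < ‖x‖ := norm_pos_iff.2 hx
  have e : ∀ y : H, ‖((r / 2 / ‖x‖ : ℝ) : ℂ) • y‖ = r / 2 / ‖x‖ * ‖y‖ := fun y => by
    rw [norm_smul, Complex.norm_real, Real.norm_of_nonneg (by positivity)]
  have h1 := key (((r / 2 / ‖x‖ : ℝ) : ℂ) • x) (by
    rw [e, div_mul_cancel₀ _ hn.ne']; linarith)
  rw [map_smul, e, div_mul_eq_mul_div, div_le_iff₀ hn] at h1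
  rw [div_mul_eq_mul_div, le_div_iff₀ (by positivity)]
  linarith

end Pool.Agent.Results.MP_69a59d_an.Answer
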